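import Pool.Agent.Run7.h723.OG.Iface

set_option autoImplicit false

/-! Pieces LOWA and LOWB of project OG (problem MP_e4b521_co). -/

namespace Run7.h6.OG

open Pool.H723.OG

open Classical in
theorem nb3 {V : Type} [DecidableEq V] (G : SimpleGraph V) (x y z v : V)
    (hxy : x ≠ y) (hxz : x ≠ z) (hyz : y ≠ z) :
    nb G {x, y, z} v = (if G.Adj x v then 1 else 0) + (if G.Adj y v then 1 else 0)
      + (if G.Adj z v then 1 else 0) := by
  unfold nb
  rw [Finset.card_filter, Finset.sum_insert (by simp [hxy, hxz]),
    Finset.sum_insert (by simp [hyz]), Finset.sum_singleton]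
  ring

open Classical in
theorem nb2 {V : Type} [DecidableEq V] (G : SimpleGraph V) (x y v : V) (hxy : x ≠ y) :
    nb G {x, y} v = (if G.Adj x v then 1 else 0) + (if G.Adj y v then 1 else 0) := by
  unfold nb
  rw [Finset.card_filter, Finset.sum_insert (by simp [hxy]), Finset.sum_singleton]

theorem mem_lev {V : Type} [Fintype V] (G : SimpleGraph V) (D : Finset V) (j : ℕ) (v : V) :
    v ∈ lev G D j ↔ v ∉ D ∧ nb G D v = j := by
  unfold lev
  simp

theorem exists_compl_adj {V : Type} (G : SimpleGraph V) (hG : Gᶜ.Connected) (c w : V)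
    (h : c ≠ w) : ∃ u, u ≠ c ∧ ¬ G.Adj c u := by
  obtain ⟨p⟩ := hG.preconnected c w
  cases p with
  | nil => exact absurd rfl h
  | @cons _ u _ h' _ =>
    rw [SimpleGraph.compl_adj] at h'
    exact ⟨u, h'.1.symm, h'.2⟩

theorem exists_avoid {V : Type} [Fintype V] [DecidableEq V] (h7 : 7 ≤ Fintype.card V)
    (x y c d : V) : ∃ z, z ≠ x ∧ z ≠ y ∧ z ≠ c ∧ z ≠ d := by
  have h : ({x, y, c, d} : Finset V).card < (Finset.univ : Finset V).card := by
    have := Finset.card_le_four (a := x) (b := y) (c := c) (d := d)
    rw [Finset.card_univ]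
    omega
  obtain ⟨z, -, hz⟩ := Finset.exists_mem_notMem_of_card_lt_card h
  simp only [Finset.mem_insert, Finset.mem_singleton, not_or] at hz
  exact ⟨z, hz.1, hz.2.1, hz.2.2.1, hz.2.2.2⟩

/-- one common candidate: impossible -/
theorem one {V : Type} [Fintype V] [DecidableEq V] (G : SimpleGraph V)
    (h7 : 7 ≤ Fintype.card V) (hGc : Gᶜ.Connected) (hCC : CC G) (x y c : V) (hxy : x ≠ y)
    (hcx : c ≠ x) (hcy : c ≠ y)
    (hc : ∀ v, v ≠ x → v ≠ y → (G.Adj x v ∨ G.Adj y v) → v = c) : False := by
  have key : ∀ z, z ≠ x → z ≠ y → z ≠ c → G.Adj x c ∧ G.Adj y c ∧ G.Adj z c := by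
    intro z hzx hzy hzc
    have h := hCC x y z hxy (Ne.symm hzx) (Ne.symm hzy)
    have hsub : ∀ j, 2 ≤ j → lev G {x, y, z} j ⊆ {c} := by
      intro j hj v hv
      rw [mem_lev, nb3 G x y z v hxy (Ne.symm hzx) (Ne.symm hzy)] at hv
      obtain ⟨hv1, hv2⟩ := hv
      simp only [Finset.mem_insert, Finset.mem_singleton, not_or] at hv1
      rw [Finset.mem_singleton]
      apply hc v hv1.1 hv1.2.1
      by_contra hcon
      rw [not_or] at hcon
      rw [if_neg hcon.1, if_neg hcon.2] at hv2
      split_ifs at hv2 <;> omega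
    by_cases h3 : (lev G {x, y, z} 3).Nonempty
    · obtain ⟨v, hv⟩ := h3
      have hvc : v = c := Finset.mem_singleton.mp (hsub 3 (by norm_num) hv)
      subst hvc
      rw [mem_lev, nb3 G x y z v hxy (Ne.symm hzx) (Ne.symm hzy)] at hv
      obtain ⟨-, hv2⟩ := hv
      by_cases h1 : G.Adj x v <;> by_cases h2 : G.Adj y v <;> by_cases h4 : G.Adj z v <;>
        simp [h1, h2, h4] at hv2 ⊢
    · rw [Finset.not_nonempty_iff_eq_empty] at h3
      have h2 := Finset.card_le_card (hsub 2 le_rfl)
      rw [Finset.card_singleton] at h2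
      rw [h3, Finset.card_empty] at h
      omega
  obtain ⟨u, hu1, hu2⟩ := exists_compl_adj G hGc c x hcx
  obtain ⟨z0, hz1, hz2, hz3, -⟩ := exists_avoid h7 x y c c
  have hk0 := key z0 hz1 hz2 hz3
  by_cases hux : u = x
  · subst hux; exact hu2 hk0.1.symm
  by_cases huy : u = y
  · subst huy; exact hu2 hk0.2.1.symm
  exact hu2 (key u hux huy hu1).2.2.symm

theorem key (hC : S_COST) {V : Type} [Fintype V] [DecidableEq V] (G : SimpleGraph V)
    (h7 : 7 ≤ Fintype.card V) (hGc : Gᶜ.Connected) (hCC : CC G) (x y : V) (hxy : x ≠ y)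
    (hx : ∀ u v, G.Adj x u → G.Adj x v → u ≠ y → v ≠ y → u = v)
    (hy : ∀ u v, G.Adj y u → G.Adj y v → u ≠ x → v ≠ x → u = v) : Le G 3 := by
  by_cases hA : ∃ a, G.Adj x a ∧ a ≠ y
  · obtain ⟨a, hxa, hay⟩ := hA
    have hax : a ≠ x := fun h => G.irrefl (h ▸ hxa)
    by_cases hB : ∃ b, G.Adj y b ∧ b ≠ x ∧ b ≠ a
    · obtain ⟨b, hyb, hbx, hba⟩ := hB
      have hby : b ≠ y := fun h => G.irrefl (h ▸ hyb)
      have hya : ¬ G.Adj y a := fun h => hba (hy b a hyb h hbx hax)
      have hxb : ¬ G.Adj x b := fun h => hba (hx b a h hxa hby hay)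
      have key : ∀ z, z ≠ x → z ≠ y → z ≠ a → z ≠ b → G.Adj a z ∧ G.Adj b z := by
        intro z hzx hzy hza hzb
        have h := hCC x y z hxy (Ne.symm hzx) (Ne.symm hzy)
        have h3 : lev G {x, y, z} 3 = ∅ := by
          rw [Finset.eq_empty_iff_forall_notMem]
          intro v hv
          rw [mem_lev, nb3 G x y z v hxy (Ne.symm hzx) (Ne.symm hzy)] at hv
          obtain ⟨hv1, hv2⟩ := hv
          simp only [Finset.mem_insert, Finset.mem_singleton, not_or] at hv1
          have h1 : G.Adj x v := by
            by_contra hcon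
            rw [if_neg hcon] at hv2
            split_ifs at hv2 <;> omega
          have h2 : G.Adj y v := by
            by_contra hcon
            rw [if_neg hcon] at hv2
            split_ifs at hv2 <;> omega
          have e1 := hx v a h1 hxa hv1.2.1 hay
          have e2 := hy v b h2 hyb hv1.1 hbx
          exact hba (e2.symm.trans e1)
        have h2s : lev G {x, y, z} 2 ⊆ {a, b} := by
          intro v hv
          rw [mem_lev, nb3 G x y z v hxy (Ne.symm hzx) (Ne.symm hzy)] at hv
          obtain ⟨hv1, hv2⟩ := hv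
          simp only [Finset.mem_insert, Finset.mem_singleton, not_or] at hv1 ⊢
          by_contra hcon
          rw [not_or] at hcon
          have h1 : ¬ G.Adj x v := fun h => hcon.1 (hx v a h hxa hv1.2.1 hay)
          have h2 : ¬ G.Adj y v := fun h => hcon.2 (hy v b h hyb hv1.1 hbx)
          rw [if_neg h1, if_neg h2] at hv2
          split_ifs at hv2 <;> omega
        have h2e : lev G {x, y, z} 2 = {a, b} := by
          apply Finset.eq_of_subset_of_card_le h2s
          have := Finset.card_le_two (a := a) (b := b)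
          rw [h3, Finset.card_empty] at h
          omega
        have ha : a ∈ lev G {x, y, z} 2 := by rw [h2e]; simp
        have hb : b ∈ lev G {x, y, z} 2 := by rw [h2e]; simp
        rw [mem_lev, nb3 G x y z _ hxy (Ne.symm hzx) (Ne.symm hzy)] at ha hb
        constructor
        · have := ha.2
          rw [if_neg hya] at this
          by_contra hcon
          rw [if_neg (fun h => hcon (SimpleGraph.Adj.symm h))] at this
          split_ifs at this <;> omega
        · have := hb.2
          rw [if_neg hxb] at this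
          by_contra hcon
          rw [if_neg (fun h => hcon (SimpleGraph.Adj.symm h))] at this
          split_ifs at this <;> omega
      apply hC V G {a, b} 3
      unfold cost2
      have hab : a ≠ b := Ne.symm hba
      have h0 : lev G {a, b} 0 = ∅ := by
        rw [Finset.eq_empty_iff_forall_notMem]
        intro v hv
        rw [mem_lev, nb2 G a b v hab] at hv
        obtain ⟨hv1, hv2⟩ := hv
        simp only [Finset.mem_insert, Finset.mem_singleton, not_or] at hv1
        by_cases hvx : v = x
        · subst hvx; rw [if_pos hxa.symm] at hv2; omega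
        by_cases hvy : v = y
        · subst hvy; rw [if_pos hyb.symm] at hv2; omega
        have := key v hvx hvy hv1.1 hv1.2
        rw [if_pos this.1] at hv2; omega
      have h1 : lev G {a, b} 1 ⊆ {x, y} := by
        intro v hv
        rw [mem_lev, nb2 G a b v hab] at hv
        obtain ⟨hv1, hv2⟩ := hv
        simp only [Finset.mem_insert, Finset.mem_singleton, not_or] at hv1 ⊢
        by_contra hcon
        rw [not_or] at hcon
        have := key v hcon.1 hcon.2 hv1.1 hv1.2
        rw [if_pos this.1, if_pos this.2] at hv2; omega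
      have h1c := Finset.card_le_card h1
      have h2c := Finset.card_le_two (a := x) (b := y)
      have h3c := Finset.card_le_two (a := a) (b := b)
      rw [h0, Finset.card_empty]
      omega
    · exfalso
      push Not at hB
      refine one G h7 hGc hCC x y a hxy hax hay ?_
      intro v hvx hvy hv
      rcases hv with hv | hv
      · exact hx v a hv hxa hvy hay
      · exact hB v hv hvx
  · push Not at hA
    by_cases hB : ∃ b, G.Adj y b ∧ b ≠ x
    · exfalso
      obtain ⟨b, hyb, hbx⟩ := hB
      have hby : b ≠ y := fun h => G.irrefl (h ▸ hyb)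
      refine one G h7 hGc hCC x y b hxy hbx hby ?_
      intro v hvx hvy hv
      rcases hv with hv | hv
      · exact absurd (hA v hv) hvy
      · exact hy v b hv hyb hvx hbx
    · exfalso
      push Not at hB
      obtain ⟨c, hcx, hcy, -, -⟩ := exists_avoid h7 x y x y
      refine one G h7 hGc hCC x y c hxy hcx hcy ?_
      intro v hvx hvy hv
      rcases hv with hv | hv
      · exact absurd (hA v hv) hvy
      · exact absurd (hB v hv) hvx

theorem two_of_dg {V : Type} [Fintype V] [DecidableEq V] (G : SimpleGraph V) (x y : V)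
    (hxy : G.Adj x y) (h : dg G x ≤ 2) :
    ∀ u v, G.Adj x u → G.Adj x v → u ≠ y → v ≠ y → u = v := by
  classical
  intro u v hu hv huy hvy
  by_contra huv
  have hs : ({u, v, y} : Finset V).card = 3 := by
    rw [Finset.card_eq_three]
    exact ⟨u, v, y, huv, huy, hvy, rfl⟩
  unfold dg at h
  have := Finset.card_le_card (s := ({u, v, y} : Finset V))
    (t := Finset.univ.filter (fun w => G.Adj w x)) (by
      intro w hw
      simp only [Finset.mem_insert, Finset.mem_singleton] at hw
      rw [Finset.mem_filter]
      refine ⟨Finset.mem_univ _, ?_⟩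
      rcases hw with rfl | rfl | rfl
      · exact hu.symm
      · exact hv.symm
      · exact hxy.symm)
  omega

theorem one_of_dg {V : Type} [Fintype V] [DecidableEq V] (G : SimpleGraph V) (x : V)
    (h : dg G x = 1) : ∀ u v, G.Adj x u → G.Adj x v → u = v := by
  classical
  intro u v hu hv
  by_contra huv
  have hs : ({u, v} : Finset V).card = 2 := Finset.card_pair huv
  unfold dg at h
  have := Finset.card_le_card (s := ({u, v} : Finset V))
    (t := Finset.univ.filter (fun w => G.Adj w x)) (by
      intro w hw
      simp only [Finset.mem_insert, Finset.mem_singleton] at hw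
      rw [Finset.mem_filter]
      refine ⟨Finset.mem_univ _, ?_⟩
      rcases hw with rfl | rfl
      · exact hu.symm
      · exact hv.symm)
  omega

theorem t_LOWA (hC : S_COST) : S_LOWA := by
  intro V _ _ G h7 _ hGc hCC x y hxy hx hy
  exact key hC G h7 hGc hCC x y hxy.ne (two_of_dg G x y hxy hx) (two_of_dg G y x hxy.symm hy)

theorem t_LOWB (hC : S_COST) : S_LOWB := by
  intro V _ _ G h7 _ hGc hCC x y hxy hx hy
  exact key hC G h7 hGc hCC x y hxy (fun u v hu hv _ _ => one_of_dg G x hx u v hu hv)
    (fun u v hu hv _ _ => one_of_dg G y hy u v hu hv)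

end Run7.h6.OG
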